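import Pool.Agent.Lib.helper19.Cake

set_option autoImplicit false

namespace Pool.Agent.Results.MP_b3d40b_lc.Two

open MeasureTheory Set Pool.Agent.Lib.helper19.Cake

section Aux

lemma FU.meas {S : Set ℝ} (h : FU S) : MeasurableSet S := by
  obtain ⟨I, h1, rfl⟩ := h
  exact Finset.measurableSet_biUnion _ fun J hJ => (h1 J hJ).measurableSet

lemma FU.inter {S T : Set ℝ} (hS : FU S) (hT : FU T) : FU (S ∩ T) := by
  classical
  obtain ⟨I, h1, rfl⟩ := hS
  obtain ⟨K, h2, rfl⟩ := hT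
  refine ⟨(I ×ˢ K).image fun p => p.1 ∩ p.2, ?_, ?_⟩
  · simp only [Finset.mem_image, Finset.mem_product]
    rintro _ ⟨p, hp, rfl⟩
    exact (h1 _ hp.1).inter (h2 _ hp.2)
  · ext x
    simp only [mem_inter_iff, mem_iUnion, Finset.mem_image, Finset.mem_product, exists_prop]
    constructor
    · rintro ⟨⟨J, a, b⟩, J', c, d⟩
      exact ⟨_, ⟨(J, J'), ⟨a, c⟩, rfl⟩, b, d⟩
    · rintro ⟨_, ⟨p, hp, rfl⟩, b, d⟩
      exact ⟨⟨_, hp.1, b⟩, _, hp.2, d⟩

lemma FU.empty : FU ∅ := ⟨∅, by simp, by simp⟩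

lemma FU.disj {S : Set ℝ} (h : FU S) : ∃ I : Finset (Set ℝ), (∀ J ∈ I, J.OrdConnected ∧ J ⊆ S) ∧
    (I : Set (Set ℝ)).PairwiseDisjoint id ∧ S ⊆ ⋃ J ∈ I, J := by
  classical
  obtain ⟨I, h1, hS⟩ := h
  have hfin : (range fun x : S => ordConnectedComponent S x).Finite := by
    refine (I.finite_toSet.image fun J => ordConnectedComponent S (Classical.epsilon (· ∈ J))).subset ?_
    rintro _ ⟨⟨x, hx⟩, rfl⟩
    have hx' := hx
    rw [hS] at hx'
    simp only [mem_iUnion, exists_prop] at hx'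
    obtain ⟨J, a, b⟩ := hx'
    refine ⟨J, a, ordConnectedComponent_eq ?_⟩
    refine ((h1 J a).uIcc_subset (Classical.epsilon_spec ⟨x, b⟩) b).trans ?_
    rw [hS]
    exact subset_biUnion_of_mem (u := fun J => J) a
  refine ⟨hfin.toFinset, ?_, ?_, ?_⟩
  · simp only [Finite.mem_toFinset]
    rintro _ ⟨x, rfl⟩
    exact ⟨inferInstance, ordConnectedComponent_subset⟩
  · rw [Finite.coe_toFinset]
    rintro _ ⟨x, rfl⟩ _ ⟨y, rfl⟩ hne
    rw [Function.onFun, disjoint_left]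
    intro z hx hy
    exact hne ((ordConnectedComponent_eq hx).trans (ordConnectedComponent_eq hy).symm)
  · intro x hx
    simp only [Finite.mem_toFinset, mem_iUnion, exists_prop]
    exact ⟨_, ⟨⟨x, hx⟩, rfl⟩, self_mem_ordConnectedComponent.2 hx⟩

/-- step functions with three values -/
noncomputable def ty (A W R : Set ℝ) (p x y : ℝ) : ℝ → ℝ := fun t =>
  A.indicator (fun _ => p) t + W.indicator (fun _ => x) t + R.indicator (fun _ => y) t

structure Sp (A W R : Set ℝ) : Prop where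
  fA : FU A
  fW : FU W
  fR : FU R
  dAW : Disjoint A W
  dAR : Disjoint A R
  dWR : Disjoint W R
  un : A ∪ W ∪ R = Icc 0 1

lemma fin_of_sub {S : Set ℝ} (h : S ⊆ Icc 0 1) : volume S ≠ ⊤ :=
  ne_top_of_le_ne_top (by simp) (measure_mono h)

lemma int_ind {A : Set ℝ} (hA : FU A) (h : A ⊆ Icc 0 1) (Z : Set ℝ) (p : ℝ) :
    Integrable (A.indicator fun _ => p) (volume.restrict Z) ∧
      ∫ t in Z, A.indicator (fun _ => p) t = p * volume.real (A ∩ Z) := by
  refine ⟨Integrable.restrict ((integrable_indicator_iff (FU.meas hA)).2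
    (integrableOn_const (fin_of_sub h))), ?_⟩
  rw [integral_indicator_const _ (FU.meas hA), measureReal_restrict_apply (FU.meas hA)]
  simp [mul_comm]

variable {A W R : Set ℝ}

lemma Sp.sA (h : Sp A W R) : A ⊆ Icc 0 1 := h.un ▸ subset_union_left.trans subset_union_left
lemma Sp.sW (h : Sp A W R) : W ⊆ Icc 0 1 := h.un ▸ subset_union_right.trans subset_union_left
lemma Sp.sR (h : Sp A W R) : R ⊆ Icc 0 1 := h.un ▸ subset_union_right

lemma Sp.int (h : Sp A W R) (Z : Set ℝ) (p x y : ℝ) : ∫ t in Z, ty A W R p x y t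
    = p * volume.real (A ∩ Z) + x * volume.real (W ∩ Z) + y * volume.real (R ∩ Z) := by
  have a := int_ind h.fA h.sA Z p
  have b := int_ind h.fW h.sW Z x
  have c := int_ind h.fR h.sR Z y
  have ab : Integrable (fun t => A.indicator (fun _ => p) t + W.indicator (fun _ => x) t)
    (volume.restrict Z) := a.1.add b.1
  unfold ty
  rw [integral_add ab c.1, integral_add a.1 b.1, a.2, b.2, c.2]

lemma Sp.pc (h : Sp A W R) {p x y : ℝ} (hp : 0 ≤ p) (hx : 0 ≤ x) (hy : 0 ≤ y)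
    (h0 : 0 < p * volume.real A + x * volume.real W + y * volume.real R) :
    PC (ty A W R p x y) := by
  classical
  refine ⟨fun t _ => add_nonneg (add_nonneg (indicator_nonneg (fun _ _ => hp) _)
    (indicator_nonneg (fun _ _ => hx) _)) (indicator_nonneg (fun _ _ => hy) _), ?_, ?_⟩
  · obtain ⟨I, a1, a2, a3⟩ := FU.disj h.fA
    obtain ⟨K, b1, b2, b3⟩ := FU.disj h.fW
    obtain ⟨L, c1, c2, c3⟩ := FU.disj h.fR
    refine ⟨I ∪ K ∪ L, ?_, ?_, ?_⟩
    · intro J hJ
      simp only [Finset.mem_union] at hJ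
      rcases hJ with (hJ | hJ) | hJ
      · refine ⟨(a1 J hJ).1, p, fun t ht => ?_⟩
        have := (a1 J hJ).2 ht
        simp [ty, this, disjoint_left.1 h.dAW this, disjoint_left.1 h.dAR this]
      · refine ⟨(b1 J hJ).1, x, fun t ht => ?_⟩
        have := (b1 J hJ).2 ht
        simp [ty, this, disjoint_right.1 h.dAW this, disjoint_left.1 h.dWR this]
      · refine ⟨(c1 J hJ).1, y, fun t ht => ?_⟩
        have := (c1 J hJ).2 ht
        simp [ty, this, disjoint_right.1 h.dAR this, disjoint_right.1 h.dWR this]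
    · rw [Finset.coe_union, Finset.coe_union]
      refine (a2.union b2 fun J hJ J' hJ' _ => h.dAW.mono (a1 J hJ).2 (b1 J' hJ').2).union c2 ?_
      rintro J (hJ | hJ) J' hJ' _
      · exact h.dAR.mono (a1 J hJ).2 (c1 J' hJ').2
      · exact h.dWR.mono (b1 J hJ).2 (c1 J' hJ').2
    · rw [← h.un, Finset.set_biUnion_union, Finset.set_biUnion_union]
      congr 1
      · congr 1
        · exact (iUnion₂_subset fun J hJ => (a1 J hJ).2).antisymm a3
        · exact (iUnion₂_subset fun J hJ => (b1 J hJ).2).antisymm b3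
      · exact (iUnion₂_subset fun J hJ => (c1 J hJ).2).antisymm c3
  · rwa [h.int, inter_eq_left.2 h.sA, inter_eq_left.2 h.sW, inter_eq_left.2 h.sR]

lemma ty_eq {W' R' : Set ℝ} (h : Sp A W R) (h' : Sp A W' R') (p x : ℝ) :
    ty A W R p x x = ty A W' R' p x x := by
  have e : ∀ {W R : Set ℝ}, Sp A W R → W ∪ R = Icc 0 1 \ A := fun {W R} h => by
    rw [← h.un, union_assoc, union_sdiff_cancel_left]
    exact (disjoint_union_right.2 ⟨h.dAW, h.dAR⟩).le_bot
  funext t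
  simp only [ty, add_assoc]
  have k := congrFun (indicator_union_of_disjoint h.dWR (fun _ => x)) t
  have k' := congrFun (indicator_union_of_disjoint h'.dWR (fun _ => x)) t
  rw [← k, ← k', e h, e h']

lemma line {u v p q : ℝ → ℝ} {T L : ℝ} (hT : 0 ≤ T)
    (hu : ∀ s ∈ Icc 0 T, ∀ t ∈ Icc 0 T, u s + p s * (t - s) ≤ u t)
    (hv : ∀ s ∈ Icc 0 T, ∀ t ∈ Icc 0 T, v s + q s * (t - s) ≤ v t)
    (hpq : ∀ t ∈ Icc 0 T, p t ≤ q t) (hL : ∀ t ∈ Icc 0 T, 0 ≤ q t ∧ q t ≤ L) :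
    u T - u 0 ≤ v T - v 0 := by
  refine le_of_forall_pos_le_add fun ε hε => ?_
  obtain ⟨N, hN⟩ := exists_nat_gt (L * T / ε)
  have h0 := hL 0 ⟨le_rfl, hT⟩
  have hL0 : 0 ≤ L := h0.1.trans h0.2
  have hN0 : (0 : ℝ) < N := lt_of_le_of_lt (by positivity) hN
  obtain ⟨d, hd⟩ : ∃ d, d = T / N := ⟨_, rfl⟩
  have hd0 : 0 ≤ d := by rw [hd]; positivity
  have hNd : N * d = T := by rw [hd]; field_simp
  have hm : ∀ k : ℕ, k ≤ N → k * d ∈ Icc 0 T := fun k hk =>
    ⟨by positivity, hNd ▸ mul_le_mul_of_nonneg_right (by exact_mod_cast hk) hd0⟩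
  have key : ∀ k : ℕ, k ≤ N → u (k * d) - u 0 ≤ v (k * d) - v 0 + (q (k * d) - q 0) * d := by
    intro k
    induction k with
    | zero => simp
    | succ k ih =>
      intro hk
      have a := ih (by omega)
      have b := hu _ (hm _ hk) _ (hm k (by omega))
      have c := hv _ (hm k (by omega)) _ (hm _ hk)
      have e := mul_le_mul_of_nonneg_right (hpq _ (hm _ hk)) hd0
      have f : ((k + 1 : ℕ) : ℝ) * d - k * d = d := by push_cast; ring
      have g : (k : ℝ) * d - ((k + 1 : ℕ) : ℝ) * d = -d := by push_cast; ring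
      rw [f] at c
      rw [g] at b
      nlinarith
  have a := key N le_rfl
  rw [hNd] at a
  have b := hL T ⟨hT, le_rfl⟩
  have c : L * d ≤ ε := by
    rw [div_lt_iff₀ hε] at hN
    rw [hd, ← mul_div_assoc, div_le_iff₀ hN0]
    linarith
  nlinarith

theorem core (X Y : (ℝ → ℝ) → (ℝ → ℝ) → Set ℝ)
    (h0 : ∀ f g, PC f → PC g → FU (X f g) ∧ FU (Y f g) ∧ Disjoint (X f g) (Y f g) ∧
      X f g ∪ Y f g = Icc 0 1)
    (h1 : ∀ f f' g, PC f → PC f' → PC g → ∫ t in X f' g, f t ≤ ∫ t in X f g, f t)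
    (h2 : ∀ f g g', PC f → PC g → PC g' → ∫ t in Y f g', g t ≤ ∫ t in Y f g, g t)
    (p1 : ∀ f g, PC f → PC g → 0 < ∫ t in X f g, f t)
    (p2 : ∀ f g, PC f → PC g → 0 < ∫ t in Y f g, g t) : False := by
  have s0 : Sp (Icc 0 1) ∅ ∅ := ⟨⟨{Icc 0 1}, by simp [ordConnected_Icc], by simp⟩, FU.empty,
    FU.empty, by simp, by simp, by simp, by simp⟩
  obtain ⟨one, hone⟩ : ∃ one, one = ty (Icc 0 1) ∅ ∅ 1 1 1 := ⟨_, rfl⟩
  have pone : PC one := hone ▸ s0.pc zero_le_one zero_le_one zero_le_one (by simp)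
  obtain ⟨A, hA⟩ : ∃ A, A = X one one := ⟨_, rfl⟩
  obtain ⟨B, hB⟩ : ∃ B, B = Y one one := ⟨_, rfl⟩
  obtain ⟨fA, fB, dAB, uAB⟩ := h0 _ _ pone pone
  rw [← hA] at fA dAB uAB
  rw [← hB] at fB dAB uAB
  have sB : Sp A B ∅ := ⟨fA, fB, FU.empty, dAB, by simp, by simp, by simpa using uAB⟩
  have eone : ∀ W R, Sp A W R → one = ty A W R 1 1 1 := by
    intro W R h
    rw [ty_eq h sB, hone]
    funext t
    simp only [ty, indicator_empty, add_zero]
    rw [← uAB, indicator_union_of_disjoint dAB]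
  have hsum : ∀ f g, PC f → PC g → ∀ T, T ⊆ Icc 0 1 → MeasurableSet T →
      volume.real (T ∩ Y f g) = volume.real T - volume.real (T ∩ X f g) := by
    intro f g hf hg T hT mT
    obtain ⟨a, b, c, d⟩ := h0 f g hf hg
    rw [eq_sub_iff_add_eq, ← measureReal_union (c.symm.mono inter_subset_right inter_subset_right)
      (mT.inter (FU.meas a)) (fin_of_sub (inter_subset_left.trans hT))
      (fin_of_sub (inter_subset_left.trans hT)), ← inter_union_distrib_left, union_comm, d,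
      inter_eq_left.2 hT]
  have t2 : ∀ W R, Sp A W R → ∀ p x y f g', PC f → PC (ty A W R p x y) → PC g' →
      p * volume.real (A ∩ X f (ty A W R p x y)) + x * volume.real (W ∩ X f (ty A W R p x y))
        + y * volume.real (R ∩ X f (ty A W R p x y)) ≤ p * volume.real (A ∩ X f g')
        + x * volume.real (W ∩ X f g') + y * volume.real (R ∩ X f g') := by
    intro W R h p x y f g' hf hg hg'
    have := h2 f _ g' hf hg hg'
    simp only [h.int, hsum _ _ hf hg _ h.sA (FU.meas h.fA), hsum _ _ hf hg _ h.sW (FU.meas h.fW),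
      hsum _ _ hf hg _ h.sR (FU.meas h.fR), hsum _ _ hf hg' _ h.sA (FU.meas h.fA),
      hsum _ _ hf hg' _ h.sW (FU.meas h.fW), hsum _ _ hf hg' _ h.sR (FU.meas h.fR)] at this
    linarith
  have hWR : ∀ W R, Sp A W R → ∀ Z, volume.real (B ∩ Z)
      = volume.real (W ∩ Z) + volume.real (R ∩ Z) := by
    intro W R h Z
    have a := h.int Z 0 1 1
    rw [ty_eq h sB, sB.int] at a
    simpa using a
  have ha : 0 < volume.real A := by
    have := p1 _ _ pone pone
    rw [← hA, eone _ _ sB, sB.int, disjoint_iff_inter_eq_empty.1 dAB.symm] at this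
    simpa using this
  have hb : 0 < volume.real B := by
    have := p2 _ _ pone pone
    rw [← hB, eone _ _ sB, sB.int, disjoint_iff_inter_eq_empty.1 dAB] at this
    simpa using this
  have nn : ∀ Z : Set ℝ, 0 ≤ volume.real Z := fun _ => measureReal_nonneg
  have hle : ∀ T Z : Set ℝ, T ⊆ Icc 0 1 → volume.real (T ∩ Z) ≤ volume.real T := fun T Z h =>
    measureReal_mono inter_subset_left (fin_of_sub h)
  have hb1 : volume.real B ≤ 1 := by
    have := measureReal_mono sB.sW (μ := volume) (by simp)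
    simpa using this
  obtain ⟨G, hG⟩ : ∃ G : (ℝ → ℝ) → Prop, ∀ g, G g ↔
      ∃ W R τ, Sp A W R ∧ 0 < τ ∧ τ ≤ 1 ∧ g = ty A W R 0 1 τ := ⟨_, fun _ => Iff.rfl⟩
  have Gpc : ∀ g, G g → PC g := by
    intro g hg
    obtain ⟨W, R, τ, h, a, b, rfl⟩ := (hG g).1 hg
    refine h.pc le_rfl zero_le_one a.le ?_
    have c := hWR W R h univ
    simp only [inter_univ] at c
    nlinarith [nn W, nn R]
  have Gz : ∀ g, G g → ∀ f g', PC f → PC g' → volume.real (B ∩ X f g') = 0 →
      volume.real (B ∩ X f g) = 0 := by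
    intro g hg f g' hf hg' hz
    have pg := Gpc g hg
    obtain ⟨W, R, τ, h, a, b, rfl⟩ := (hG g).1 hg
    have c := t2 W R h 0 1 τ f g' hf pg hg'
    rw [hWR W R h] at hz ⊢
    have e1 := nn (W ∩ X f g')
    have e2 := nn (R ∩ X f g')
    have e3 := nn (W ∩ X f (ty A W R 0 1 τ))
    have e4 := nn (R ∩ X f (ty A W R 0 1 τ))
    have e5 : volume.real (R ∩ X f g') = 0 := by linarith
    have e6 : volume.real (W ∩ X f g') = 0 := by linarith
    rw [e5, e6] at c
    have e7 := mul_nonneg a.le e4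
    have e8 : τ * volume.real (R ∩ X f (ty A W R 0 1 τ)) = 0 := by linarith
    rw [(mul_eq_zero.1 e8).resolve_left a.ne'] at c ⊢
    linarith
  have st1 : ∀ g, G g → volume.real (B ∩ X one g) = 0 ∧
      volume.real (A ∩ X one g) = volume.real A := by
    intro g hg
    have a := Gz g hg one one pone pone
      (by rw [← hA, disjoint_iff_inter_eq_empty.1 dAB.symm]; simp)
    have b := t2 _ _ sB 1 1 1 one g pone (eone _ _ sB ▸ pone) (Gpc g hg)
    rw [← eone _ _ sB, ← hA, a, disjoint_iff_inter_eq_empty.1 dAB.symm] at b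
    exact ⟨a, le_antisymm (hle _ _ sB.sA) (by simpa using b)⟩
  have t1 : ∀ W R, Sp A W R → ∀ p x y f' g, PC (ty A W R p x y) → PC f' → PC g →
      p * volume.real (A ∩ X f' g) + x * volume.real (W ∩ X f' g) + y * volume.real (R ∩ X f' g)
      ≤ p * volume.real (A ∩ X (ty A W R p x y) g) + x * volume.real (W ∩ X (ty A W R p x y) g)
        + y * volume.real (R ∩ X (ty A W R p x y) g) := by
    intro W R h p x y f' g hf hf' hg
    simpa only [h.int] using h1 _ f' g hf hf' hg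
  obtain ⟨E, hE⟩ : ∃ E : Set ℝ, E = {r | ∃ f g, PC f ∧ G g ∧ 0 < volume.real (B ∩ X f g) ∧
      r = (volume.real A - volume.real (A ∩ X f g)) / volume.real (B ∩ X f g)} := ⟨_, rfl⟩
  have G1 : G (ty A B ∅ 0 1 1) := (hG _).2 ⟨B, ∅, 1, sB, one_pos, le_rfl, rfl⟩
  have En : E.Nonempty := by
    have a := p1 _ _ (Gpc _ G1) (Gpc _ G1)
    rw [sB.int] at a
    rw [hE]
    exact ⟨_, _, _, Gpc _ G1, G1, by simpa using a, rfl⟩
  have Eb : ∀ r ∈ E, 1 ≤ r := by
    rw [hE]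
    rintro _ ⟨f, g, hf, hg, a, rfl⟩
    have b := t1 _ _ sB 1 1 1 f g (eone _ _ sB ▸ pone) hf (Gpc g hg)
    rw [← eone _ _ sB, (st1 g hg).1, (st1 g hg).2] at b
    rw [le_div_iff₀ a]
    simp only [empty_inter, measureReal_empty] at b
    linarith
  obtain ⟨ρ, hρ⟩ : ∃ ρ, ρ = sInf E := ⟨_, rfl⟩
  have ρ1 : 1 ≤ ρ := hρ ▸ le_csInf En Eb
  have ρle : ∀ f g, PC f → G g →
      ρ * volume.real (B ∩ X f g) ≤ volume.real A - volume.real (A ∩ X f g) := by
    intro f g hf hg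
    rcases (nn (B ∩ X f g)).eq_or_lt with a | a
    · rw [← a, mul_zero, sub_nonneg]; exact hle _ _ sB.sA
    · rw [← le_div_iff₀ a, hρ]
      exact csInf_le ⟨1, Eb⟩ (hE ▸ ⟨f, g, hf, hg, a, rfl⟩)
  have fpc : ∀ W R, Sp A W R → ∀ x y, 0 ≤ x → 0 ≤ y → PC (ty A W R 1 x y) := by
    intro W R h x y hx hy
    refine h.pc zero_le_one hx hy ?_
    nlinarith [mul_nonneg hx (nn W), mul_nonneg hy (nn R)]
  obtain ⟨H, hH⟩ : ∃ H, H = 3 / 2 * ρ := ⟨_, rfl⟩
  have pH := fpc _ _ sB H H (by linarith) (by linarith)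
  have g1 := Gpc _ G1
  have hs : 0 < volume.real (B ∩ X (ty A B ∅ 1 H H) (ty A B ∅ 0 1 1)) := by
    refine (nn _).lt_of_ne' fun hz => ?_
    obtain ⟨r, hr, hlt⟩ := exists_lt_of_csInf_lt En (show sInf E < H by linarith)
    rw [hE] at hr
    obtain ⟨f, g, hf, hg, a, rfl⟩ := hr
    rw [div_lt_iff₀ a] at hlt
    have b := t1 _ _ sB 1 H H f g pH hf (Gpc g hg)
    rw [Gz g hg _ _ pH g1 hz] at b
    have c := hle A (X (ty A B ∅ 1 H H) g) sB.sA
    simp only [empty_inter, measureReal_empty] at b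
    linarith
  obtain ⟨Z, hZ⟩ : ∃ Z, Z = X (ty A B ∅ 1 H H) (ty A B ∅ 0 1 1) := ⟨_, rfl⟩
  obtain ⟨fZ, fZ', dZ, uZ⟩ := h0 _ _ pH g1
  obtain ⟨W, hW⟩ : ∃ W, W = B ∩ Z := ⟨_, rfl⟩
  obtain ⟨R, hR⟩ : ∃ R, R = B ∩ Y (ty A B ∅ 1 H H) (ty A B ∅ 0 1 1) := ⟨_, rfl⟩
  rw [← hZ] at fZ dZ uZ hs
  rw [← hW] at hs
  have sW : Sp A W R := by
    rw [hW, hR]
    refine ⟨fA, FU.inter fB fZ, FU.inter fB fZ', dAB.mono_right inter_subset_left,
      dAB.mono_right inter_subset_left, dZ.mono inter_subset_right inter_subset_right, ?_⟩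
    rw [union_assoc, ← inter_union_distrib_left, uZ, inter_eq_left.2 sB.sW, uAB]
  have eW : volume.real (W ∩ Z) = volume.real W := by rw [hW, inter_assoc, inter_self]
  have eR : volume.real (R ∩ Z) = 0 := by
    have := hWR W R sW Z
    rw [← hW, eW] at this
    linarith
  rw [ty_eq sB sW, ty_eq sB sW] at hZ
  rw [ty_eq sB sW] at G1 g1 pH
  have pW : PC (ty A W R 0 1 0) := sW.pc le_rfl zero_le_one le_rfl (by simpa using hs)
  obtain ⟨α, hα⟩ : ∃ α, α = volume.real (W ∩ X (ty A W R 0 1 0) (ty A W R 0 1 0)) := ⟨_, rfl⟩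
  have αlt : α < volume.real W := by
    have := p2 _ _ pW pW
    rw [sW.int, hsum _ _ pW pW _ sW.sW (FU.meas sW.fW)] at this
    linarith
  have α0 : 0 ≤ α := hα ▸ nn _
  have hw1 : volume.real W ≤ 1 := (hW ▸ hle B Z sB.sW).trans hb1
  have hr1 : volume.real R ≤ 1 := (hR ▸ hle B _ sB.sW).trans hb1
  obtain ⟨τ, hτ⟩ : ∃ τ, τ = (volume.real W - α) / 2 := ⟨_, rfl⟩
  have τ0 : 0 < τ := by linarith
  have Gτ : G (ty A W R 0 1 τ) := (hG _).2 ⟨W, R, τ, sW, τ0, by linarith, rfl⟩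
  have gτ := Gpc _ Gτ
  have hκ : ∀ f, PC f → volume.real (W ∩ X f (ty A W R 0 1 τ)) ≤ α + τ := by
    intro f hf
    have a := t2 W R sW 0 1 τ f _ hf gτ pW
    have b := t1 W R sW 0 1 0 f _ pW hf pW
    have c := mul_le_mul_of_nonneg_left ((hle R (X f (ty A W R 0 1 0)) sW.sR).trans hr1) τ0.le
    have d := mul_nonneg τ0.le (nn (R ∩ X f (ty A W R 0 1 τ)))
    linarith
  obtain ⟨V, hV⟩ : ∃ V : (ℝ → ℝ) → ℝ → ℝ → ℝ, ∀ g x y, V g x y =
      volume.real (A ∩ X (ty A W R 1 x y) g) + x * volume.real (W ∩ X (ty A W R 1 x y) g)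
        + y * volume.real (R ∩ X (ty A W R 1 x y) g) := ⟨_, fun _ _ _ => rfl⟩
  have Vopt : ∀ g, G g → ∀ x y, 0 ≤ x → 0 ≤ y → ∀ f, PC f → volume.real (A ∩ X f g)
      + x * volume.real (W ∩ X f g) + y * volume.real (R ∩ X f g) ≤ V g x y := by
    intro g hg x y hx hy f hf
    have := t1 W R sW 1 x y f g (fpc _ _ sW x y hx hy) hf (Gpc g hg)
    rw [hV]
    linarith
  have Vlo : ∀ g, G g → ∀ x y, 0 ≤ x → 0 ≤ y → volume.real A ≤ V g x y := by
    intro g hg x y hx hy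
    have := Vopt g hg x y hx hy one pone
    rw [(st1 g hg).2] at this
    nlinarith [mul_nonneg hx (nn (W ∩ X one g)), mul_nonneg hy (nn (R ∩ X one g))]
  have Vhi : ∀ g, G g → ∀ y, 0 ≤ y → y ≤ ρ → V g ρ y ≤ volume.real A := by
    intro g hg y hy hy'
    have a := ρle _ g (fpc _ _ sW ρ y (by linarith) hy) hg
    rw [hWR W R sW] at a
    rw [hV]
    nlinarith [mul_le_mul_of_nonneg_right hy' (nn (R ∩ X (ty A W R 1 ρ y) g))]
  have Vline : ∀ g g' σ y T, G g → G g' → g = ty A W R 0 1 σ → 0 ≤ σ → σ ≤ 1 → 0 ≤ y → y ≤ ρ →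
      0 ≤ T → V g (ρ + T) (y + σ * T) ≤ V g' (ρ + T) (y + σ * T) := by
    intro g g' σ y T hg hg' e hσ hσ' hy hy' hT
    have pf : ∀ t ∈ Icc 0 T, PC (ty A W R 1 (ρ + t) (y + σ * t)) := fun t ht =>
      fpc _ _ sW _ _ (by linarith [ht.1]) (by nlinarith [ht.1])
    have sub : ∀ k, G k → ∀ s ∈ Icc 0 T, ∀ t ∈ Icc 0 T, V k (ρ + s) (y + σ * s)
        + (volume.real (W ∩ X (ty A W R 1 (ρ + s) (y + σ * s)) k)
          + σ * volume.real (R ∩ X (ty A W R 1 (ρ + s) (y + σ * s)) k)) * (t - s)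
        ≤ V k (ρ + t) (y + σ * t) := by
      intro k hk s hs t ht
      have := Vopt k hk (ρ + t) (y + σ * t) (by linarith [ht.1]) (by nlinarith [ht.1]) _ (pf s hs)
      rw [hV k (ρ + s)]
      linarith
    have := line (L := 2) hT (sub g hg) (sub g' hg') (fun t ht => by
      have := t2 W R sW 0 1 σ _ g' (pf t ht) (e ▸ Gpc g hg) (Gpc g' hg')
      rw [← e] at this
      linarith) (fun t ht => by
      have a := (hle W (X (ty A W R 1 (ρ + t) (y + σ * t)) g') sW.sW).trans hw1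
      have b := (hle R (X (ty A W R 1 (ρ + t) (y + σ * t)) g') sW.sR).trans hr1
      have c := nn (W ∩ X (ty A W R 1 (ρ + t) (y + σ * t)) g')
      have d := nn (R ∩ X (ty A W R 1 (ρ + t) (y + σ * t)) g')
      constructor <;> nlinarith)
    simp only [add_zero, mul_zero] at this
    have a := Vhi g hg y hy hy'
    have b := Vlo g' hg' ρ y (by linarith) hy
    linarith
  have l1 := Vline _ _ 1 0 ρ G1 Gτ rfl zero_le_one le_rfl le_rfl (by linarith) (by linarith)
  have l2 := Vline _ _ τ (ρ - τ * (ρ / 2)) (ρ / 2) Gτ G1 rfl τ0.le (by linarith) (by nlinarith)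
    (by nlinarith) (by linarith)
  rw [zero_add, one_mul] at l1
  rw [sub_add_cancel, show ρ + ρ / 2 = H by linarith] at l2
  have c1 := Vopt _ G1 (ρ + ρ) ρ (by linarith) (by linarith) _ pH
  have c2 := Vopt _ Gτ H ρ (by linarith) (by linarith) _
    (fpc _ _ sW (ρ + ρ) ρ (by linarith) (by linarith))
  have c3 := Vopt _ G1 H H (by linarith) (by linarith) _
    (fpc _ _ sW H ρ (by linarith) (by linarith))
  have c4 := hκ _ (fpc _ _ sW (ρ + ρ) ρ (by linarith) (by linarith))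
  rw [hV _ H H, ← hZ, eW, eR] at c3
  rw [← hZ, eW, eR] at c1
  rw [hV _ (ρ + ρ) ρ, hV (ty A W R 0 1 τ) (ρ + ρ) ρ] at l1
  rw [hV (ty A W R 0 1 1) H ρ] at l2
  have c5 := mul_le_mul_of_nonneg_right (show ρ ≤ H by linarith)
    (nn (R ∩ X (ty A W R 1 H ρ) (ty A W R 0 1 1)))
  have c6 := mul_le_mul_of_nonneg_left c4 (show 0 ≤ ρ / 2 by linarith)
  have c7 : ρ / 2 * (α + τ) < ρ / 2 * volume.real W :=
    mul_lt_mul_of_pos_left (by linarith) (by linarith)
  rw [hV _ (ρ + ρ) ρ] at c1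
  subst hH
  nlinarith

end Aux

/-- For two agents no truthful mechanism allocating the whole cake gives both agents positive
value on every profile. -/
theorem result : ¬ ∃ M : (Fin 2 → ℝ → ℝ) → Fin 2 → Set ℝ,
    Alloc M ∧ Entire M ∧ Truthful M ∧ Positive M := by
  rintro ⟨M, hA, hE, hT, hP⟩
  have pc : ∀ f g, PC f → PC g → ∀ j, PC (![f, g] j) := fun f g hf hg j => by
    fin_cases j
    exacts [hf, hg]
  refine core (fun f g => M ![f, g] 0) (fun f g => M ![f, g] 1) (fun f g hf hg => ?_)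
    (fun f f' g hf hf' hg => ?_) (fun f g g' hf hg hg' => ?_) (fun f g hf hg => hP _ (pc f g hf hg) 0)
    (fun f g hf hg => hP _ (pc f g hf hg) 1)
  · have a := hA _ (pc f g hf hg)
    refine ⟨(a.1 0).1, (a.1 1).1, a.2 (by decide), ?_⟩
    rw [← hE _ (pc f g hf hg)]
    ext x
    simp [Fin.exists_fin_two]
  · have := hT _ (pc f g hf hg) 0 f' hf'
    rwa [show Function.update ![f, g] 0 f' = ![f', g] by ext1 j; fin_cases j <;> simp] at this
  · have := hT _ (pc f g hf hg) 1 g' hg'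
    rwa [show Function.update ![f, g] 1 g' = ![f, g'] by ext1 j; fin_cases j <;> simp] at this

end Pool.Agent.Results.MP_b3d40b_lc.Two
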